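import Pool.Agent.H43.Dp3

set_option autoImplicit false
set_option linter.unusedSectionVars false

namespace Pool.Agent.Results.MP_2a8190_pr.Comparison

open MeasureTheory ProbabilityTheory Filter Topology Finset Real Function unitInterval Pool.Agent.H43.Dp

noncomputable section

variable {V : Type} [DecidableEq V] [MeasurableSpace V] {G : SimpleGraph V} [G.LocallyFinite]
  [Countable V] [DiscreteMeasurableSpace V] {μ D : ℝ} {p : I} {o : V} {ρ ρ' : ℝ → Measure (V × Env G)}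

lemma lim {a b K : ℝ} (h : ∀ r : ℕ, 0 < r → a ≤ b + K / r) : a ≤ b := by
  have := (tendsto_const_div_atTop_nhds_zero_nat K).const_add b
  rw [add_zero] at this
  exact ge_of_tendsto this ((eventually_gt_atTop 0).mono h)

lemma gap {F : Finset V} {c : ℝ} (h : ∀ u : V → ℝ, (∀ x ∉ F, u x = 0) → c * ∑ x ∈ F, u x ^ 2 ≤ BF G F 1 u u)
    (g : F → ℝ) : c * ip 1 g g ≤ -ip 1 g (L0 G F g) := by
  rw [form0]
  refine le_of_eq_of_le ?_ (h _ (e0_out g))
  rw [← sum_coe_sort F]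
  simp [ip, e0_in, sq]

lemma avg {F T : Finset V} {R : F → ℝ} {q e : ℝ} (he : 0 ≤ e) (h1 : ∀ x, |q - R x| ≤ 1)
    (h2 : ∀ x : F, x.1 ∉ T → |q - R x| ≤ e) : |#F * q - ∑ x, R x| ≤ #F * e + #T := by
  have : ∑ x : F, (if x.1 ∈ T then (1 : ℝ) else 0) ≤ #T := by
    rw [sum_coe_sort F fun x => if x ∈ T then (1 : ℝ) else 0, sum_boole]
    exact_mod_cast card_le_card fun x hx => (mem_filter.1 hx).2
  calc _ = |∑ x : F, (q - R x)| := by simp
    _ ≤ ∑ x : F, (e + if x.1 ∈ T then 1 else 0) := (abs_sum_le_sum_abs _ _).trans (sum_le_sum fun x _ => by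
        split_ifs with c
        · linarith [h1 x]
        · simpa using h2 x c)
    _ ≤ _ := by rw [sum_add_distrib]; simpa using this

variable (hD : ∀ x, (G.degree x : ℝ) ≤ D)
include hD

lemma volP (F : Finset V) {n : ℕ} {l : Fin n → ℝ} {φ : Fin n → F → ℝ} (S : Sp 1 (L0 G F) l φ) (x : F) :
    Antitone (RR l (φ · x)) ∧ ∀ c t, 0 ≤ t → (∀ g, c * ip 1 g g ≤ -ip 1 g (L0 G F g)) →
      exp (-D * t) ≤ RR l (φ · x) t ∧ RR l (φ · x) t ≤ exp (-c * t) := by
  refine ⟨RR_anti fun j => S.val j ▸ form0_nonneg _, fun c t ht hc => RR_bd ?_ ?_ (fun j => ?_) ht⟩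
  · simpa [ip_single, sq] using (S.pars (Pi.single x 1) (Pi.single x 1)).symm
  · have := form0_single hD x
    rw [S.form] at this
    simpa only [ip_single] using this
  · simpa only [S.val, S.nrm, mul_one] using hc (φ j)

lemma vol (h0 : 0 < (p : ℝ)) (h1 : (p : ℝ) < 1) (hμ : 0 < μ) (hD0 : 0 ≤ D) (F : Finset V) : ∃ RQ RP : F → ℝ → ℝ,
    (∀ (x : F) ρ, Law G μ p x ρ → ∀ r : ℕ, 0 < r → Deep G F r x → ∀ T, 0 ≤ T →
      |(ρ T).real {z | z.1 = x} - RQ x T| ≤ D * (D * T / r) * T) ∧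
    (∀ (x : F) ρ, Law G μ 1 x ρ → ∀ r : ℕ, 0 < r → Deep G F r x → ∀ T, 0 ≤ T →
      |(ρ T).real {z | z.1 = x} - RP x T| ≤ D * (D * T / r) * T) ∧
    (∀ t, 0 ≤ t → ∑ x, RP x t ≤ ∑ x, RQ x t ∧
      ∑ x, RQ x t ≤ ∑ x, RP x (t / (2 * (6 * (1 + D / μ) / p ^ 2))) + exp (-(μ / 2) * t) * #F) ∧
    (∀ x t, 0 ≤ t → 0 ≤ RP x t ∧ RP x t ≤ 1) ∧
    ∀ x c t, 0 ≤ c → 0 ≤ t → (∀ g, c * ip 1 g g ≤ -ip 1 g (L0 G F g)) →
      exp (-D * t) ≤ RQ x t ∧ RQ x t ≤ exp (-min (μ / 2) (c / (2 * (6 * (1 + D / μ) / p ^ 2))) * t) := by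
  obtain ⟨A, hA⟩ : ∃ A : Finset G.edgeSet, ∀ x ∈ F, ∀ y (h : G.Adj x y), (⟨s(x, y), h⟩ : G.edgeSet) ∈ A :=
    ⟨F.biUnion fun x => (G.neighborFinset x).attach.image fun y : G.neighborFinset x => ⟨s(x, y.1), (G.mem_neighborFinset _ _).1 y.2⟩,
      fun x hx y h => mem_biUnion.2 ⟨x, hx, mem_image.2 ⟨⟨y, by simpa⟩, mem_attach _ _, rfl⟩⟩⟩
  obtain ⟨n, l, φ, S⟩ := sp0 (G := G) (F := F)
  obtain ⟨m, κ, ψ, S'⟩ := sp1 (μ := μ) (F := F) (A := A) h0 h1
  have k := fun j => key hA h0 h1 hD hμ (ψ j)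
  simp only [S'.val, S'.nrm] at k
  set K := 6 * (1 + D / μ) / p ^ 2
  have hK : 0 < K := by positivity
  have e1 : ∀ g, ∑ j, ip 1 g (pr p (ψ j)) ^ 2 = ip 1 g g := fun g => by
    simpa only [ip_emb, pr_emb, sq] using (S'.pars (fun i => g i.1) fun i => g i.1).symm
  have e2 : ∀ g, ∑ j, κ j * ip 1 g (pr p (ψ j)) ^ 2 ≤ -ip 1 g (L0 G F g) := fun g => by
    have := form_emb (μ := μ) (p := p) hA g
    rw [S'.form] at this
    simpa only [ip_emb] using this
  have e3 : ∀ g, ∑ i, ip 1 (φ i) g ^ 2 = ip 1 g g := fun g => by simp only [S.pars g g, sq, ip_comm _ g]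
  have e4 : ∀ g : F → ℝ, ∑ x, g x ^ 2 = ip 1 g g := fun g => by simp [ip, sq]
  refine ⟨fun x => RR κ fun j => pr p (ψ j) x, fun x => RR l (φ · x), fun x ρ h r hr hF T => rep1 hA hD hμ S' x h hr hF,
    fun x ρ h r hr hF T => rep0 hD S x h hr hF, fun t ht => ?_, fun x t ht => ?_, fun x c t hc ht h => RR_bd ?_ ?_ (fun j => ?_) ht⟩
  · have := compare (a := fun i j => ip 1 (φ i) (pr p (ψ j)) ^ 2) (l := l) (κ := κ) (C := K) (μ := μ)
      (fun _ _ => sq_nonneg _) (fun i => by rw [e1, S.nrm]) (fun i => S.val i ▸ e2 _)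
      (fun j => by
        have := (k j).2.2
        rw [S.form] at this
        simpa only [ip_comm _ (pr _ _)] using this)
      (fun j => by rw [e3]; linarith [(k j).2.1]) (fun j => (k j).1) hK hμ ht
    have hn : ∑ i : Fin n, (1 : ℝ) = ∑ x : F, 1 := by
      rw [← sum_congr rfl fun i _ => (e4 _).trans (S.nrm i), sum_comm]
      exact sum_congr rfl fun x _ => by simpa [ip_single, sq] using (S.pars (Pi.single x 1) (Pi.single x 1)).symm
    simp only [RR, sum_comm (s := (univ : Finset F)), ← mul_sum, e4, S.nrm, mul_one]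
    simp only [sum_const, card_univ, Fintype.card_coe, nsmul_eq_mul, mul_one] at hn
    simpa only [e3, hn] using this
  · have := (volP hD F S x).2 0 t ht fun g => by simpa using form0_nonneg g
    exact ⟨(exp_pos _).le.trans this.1, by simpa using this.2⟩
  · simpa [ip_single] using e1 (Pi.single x 1)
  · have := (e2 _).trans (form0_single hD x)
    simpa only [ip_single] using this
  · rcases le_total (μ / 2) (κ j) with c1 | c1
    · exact min_le_of_left_le c1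
    · refine min_le_of_right_le ?_
      have : 1 / 2 ≤ ip 1 (pr p (ψ j)) (pr p (ψ j)) := by nlinarith [(k j).2.1]
      rw [div_le_iff₀ (by positivity)]
      nlinarith [(h _).trans (k j).2.2, mul_le_mul_of_nonneg_left this hc]

lemma deep (hc : G.Connected) (r : ℕ) : ∃ F : Finset V, o ∈ F ∧ Deep G F r o := by
  obtain ⟨T, -, h⟩ := ball hD {o} r
  refine ⟨T, h _ _ .nil (by simp) (by simp), fun y hy => not_lt.1 fun c => hy ?_⟩
  obtain ⟨q, hq⟩ := hc.exists_walk_length_eq_dist y o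
  exact h _ _ q (by simp) (by rw [hq, G.dist_comm]; omega)

lemma factP (hc : G.Connected) (h : Law G μ 1 o ρ) (h' : Law G μ 1 o ρ') {s t : ℝ} (hs : 0 ≤ s) (hst : s ≤ t) :
    (ρ t).real {z | z.1 = o} ≤ (ρ' s).real {z | z.1 = o} ∧
    ∀ c, (∀ (F : Finset V) g, c * ip 1 g g ≤ -ip 1 g (L0 G F g)) →
      exp (-D * s) ≤ (ρ s).real {z | z.1 = o} ∧ (ρ s).real {z | z.1 = o} ≤ exp (-c * s) := by
  have k : ∀ r : ℕ, 0 < r → (ρ t).real {z | z.1 = o} ≤ (ρ' s).real {z | z.1 = o} + (D * D * t * t + D * D * s * s) / r ∧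
      ∀ c, (∀ (F : Finset V) g, c * ip 1 g g ≤ -ip 1 g (L0 G F g)) →
        exp (-D * s) ≤ (ρ s).real {z | z.1 = o} + (D * D * s * s) / r ∧
        (ρ s).real {z | z.1 = o} ≤ exp (-c * s) + (D * D * s * s) / r := fun r hr => by
    obtain ⟨F, h1, h2⟩ := deep (o := o) hD hc r
    obtain ⟨n, l, φ, S⟩ := sp0 (G := G) (F := F)
    have a1 := abs_le.1 (rep0 hD S ⟨o, h1⟩ h hr h2 (hs.trans hst))
    have a2 := abs_le.1 (rep0 hD S ⟨o, h1⟩ h' hr h2 hs)
    have a3 := abs_le.1 (rep0 hD S ⟨o, h1⟩ h hr h2 hs)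
    obtain ⟨a4, a5⟩ := volP hD F S ⟨o, h1⟩
    have e : ∀ t, D * (D * t / r) * t = D * D * t * t / r := fun t => by ring
    simp only [e] at a1 a2 a3
    exact ⟨by rw [add_div]; linarith [a4 hst], fun c h => by constructor <;> linarith [a5 c s hs (h F)]⟩
  exact ⟨lim fun r hr => (k r hr).1, fun c h => ⟨lim fun r hr => ((k r hr).2 c h).1, lim fun r hr => ((k r hr).2 c h).2⟩⟩

variable (h0 : 0 < (p : ℝ)) (h1 : (p : ℝ) < 1) (hμ : 0 < μ) (hD0 : 0 ≤ D) (hc : G.Connected)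
include h0 h1 hμ hD0 hc

lemma factQ (h : Law G μ p o ρ) {t c : ℝ} (ht : 0 ≤ t) (hc0 : 0 ≤ c)
    (hg : ∀ (F : Finset V) g, c * ip 1 g g ≤ -ip 1 g (L0 G F g)) : exp (-D * t) ≤ (ρ t).real {z | z.1 = o} ∧
    (ρ t).real {z | z.1 = o} ≤ exp (-min (μ / 2) (c / (2 * (6 * (1 + D / μ) / p ^ 2))) * t) := by
  constructor <;> refine lim (K := D * D * t * t) fun r hr => ?_
  all_goals
    obtain ⟨F, b1, b2⟩ := deep (o := o) hD hc r
    obtain ⟨RQ, RP, a1, -, -, -, a2⟩ := vol hD h0 h1 hμ hD0 F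
    have a3 := abs_le.1 (a1 ⟨o, b1⟩ ρ h r hr b2 t ht)
    rw [show D * (D * t / r) * t = D * D * t * t / r by ring] at a3
    linarith [a2 ⟨o, b1⟩ c t hc0 ht (hg F)]

lemma folner (htr : ∀ x, ∃ f : G ≃g G, f o = x) (hF : ∀ ε : ℝ, 0 < ε → ∃ S : Finset V, #(bd G S) < ε * #S)
    (h : Law G μ p o ρ) (h' : Law G μ 1 o ρ') {t : ℝ} (ht : 0 ≤ t) :
    (ρ' t).real {z | z.1 = o} ≤ (ρ t).real {z | z.1 = o} ∧ (ρ t).real {z | z.1 = o} ≤
      (ρ' (t / (2 * (6 * (1 + D / μ) / p ^ 2)))).real {z | z.1 = o} + exp (-(μ / 2) * t) := by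
  set s := t / (2 * (6 * (1 + D / μ) / p ^ 2))
  have hs : 0 ≤ s := by positivity
  constructor <;> refine lim (K := 2 * (D * D * t * t) + D * D * s * s + 2) fun r hr => ?_
  all_goals
    obtain ⟨F, b1⟩ := hF (1 / (r * (D + 1) ^ r)) (by positivity)
    obtain ⟨T, b2, b3⟩ := ball hD (bd G F) r
    have b4 : (0 : ℝ) < #F := pos_of_mul_pos_right ((Nat.cast_nonneg _).trans_lt b1) (by positivity)
    have b5 : (#T : ℝ) ≤ #F * (1 / r) := b2.trans ((mul_le_mul_of_nonneg_left b1.le (by positivity)).trans_eq (by field_simp))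
    have b6 : ∀ x : F, x.1 ∉ T → Deep G F r x := fun x hx y hy => not_lt.1 fun c => hx (by
      obtain ⟨q, hq⟩ := hc.exists_walk_length_eq_dist x y
      obtain ⟨a, h1, q', h2⟩ := exit q x.2 hy
      exact b3 _ _ q' h1 (by omega))
    obtain ⟨RQ, RP, a1, a2, a3, a4, a5⟩ := vol hD h0 h1 hμ hD0 F
    have one : ∀ {ν : Measure (V × Env G)} [IsProbabilityMeasure ν] {y : ℝ}, 0 ≤ y ∧ y ≤ 1 →
        |ν.real {z | z.1 = o} - y| ≤ 1 := fun {ν} _ y hy => abs_le.2
      ⟨by linarith [measureReal_nonneg (μ := ν) (s := {z | z.1 = o})], by linarith [measureReal_le_one (μ := ν) (s := {z | z.1 = o})]⟩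
    haveI := h.prob
    haveI := h'.prob
    have c1 := abs_le.1 (avg (T := T) (R := (RQ · t)) (q := (ρ t).real {z | z.1 = o}) (e := D * (D * t / r) * t)
      (by positivity) (fun x => one (by
        have := a5 x 0 t le_rfl ht fun g => by simpa using form0_nonneg g
        exact ⟨(exp_pos _).le.trans this.1, by simpa [hμ.le, div_nonneg] using this.2⟩)) fun x hx => by
        obtain ⟨f, hf⟩ := htr x
        obtain ⟨ρx, d1, d2⟩ := h.transport f
        rw [← d2, hf]; exact a1 x ρx (hf ▸ d1) r hr (b6 x hx) t ht)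
    have c2 := fun u hu => abs_le.1 (avg (T := T) (R := (RP · u)) (q := (ρ' u).real {z | z.1 = o}) (e := D * (D * u / r) * u)
      (by positivity) (fun x => one (a4 x u hu)) fun x hx => by
        obtain ⟨f, hf⟩ := htr x
        obtain ⟨ρx, d1, d2⟩ := h'.transport f
        rw [← d2, hf]; exact a2 x ρx (hf ▸ d1) r hr (b6 x hx) u hu)
    refine le_of_mul_le_mul_left ?_ b4
    have c3 : 0 ≤ #F * (D * (D * s / r) * s) := by positivity
    have c4 : 0 ≤ #F * (D * (D * t / r) * t) := by positivity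
    rw [show (2 * (D * D * t * t) + D * D * s * s + 2) / r = 2 * (D * (D * t / r) * t) + D * (D * s / r) * s + 2 * (1 / r) by ring]
    linarith [a3 t ht, c2 t ht, c2 s hs]

omit hD h0 h1 hμ hD0 hc in
theorem result (V : Type) [DecidableEq V] [Countable V] [Infinite V] [MeasurableSpace V] [DiscreteMeasurableSpace V]
    (G : SimpleGraph V) [G.LocallyFinite] (hc : G.Connected) (htr : ∀ x y, ∃ f : G ≃g G, f x = y) (o : V)
    (μ : ℝ) (hμ : 0 < μ) (p : I) (hp : 0 < p) : ∃ C : ℝ, 1 ≤ C ∧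
    ∀ ρ ρ' : ℝ → Measure (V × Env G), Law G μ p o ρ → Law G μ 1 o ρ' → ∀ t, 0 ≤ t →
      1 / C * (ρ' (C * t)).real {z | z.1 = o} ≤ (ρ t).real {z | z.1 = o} ∧
      (ρ t).real {z | z.1 = o} ≤ C * (ρ' (t / C)).real {z | z.1 = o} := by
  obtain ⟨D, hD1, hD⟩ : ∃ D : ℝ, 0 < D ∧ ∀ x, (G.degree x : ℝ) ≤ D := ⟨G.degree o + 1, by positivity, fun x => by
    obtain ⟨f, rfl⟩ := htr o x
    rw [f.degree_eq]; simp⟩
  have g0 : ∀ (F : Finset V) g, 0 * ip 1 g g ≤ -ip 1 g (L0 G F g) := fun F g => by simpa using form0_nonneg g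
  rcases eq_or_lt_of_le p.2.2 with h1 | h1
  · obtain rfl : p = 1 := Subtype.ext h1
    exact ⟨1, le_rfl, fun ρ ρ' h h' t ht => by
      simpa using ⟨(factP hD hc h' h ht le_rfl).1, (factP hD hc h h' ht le_rfl).1⟩⟩
  have h0 : 0 < (p : ℝ) := hp
  set K := 2 * (6 * (1 + D / μ) / p ^ 2) with hK
  have K0 : 0 < K := by positivity
  have fin : ∀ {C x y z : ℝ}, 2 ≤ C → 0 ≤ x → 0 ≤ z → x ≤ y → y ≤ 2 * z → 1 / C * x ≤ y ∧ y ≤ C * z :=
    fun {C x y z} a1 a2 a3 a4 a5 => ⟨(mul_le_of_le_one_left a2 ((div_le_one (by linarith)).2 (by linarith))).trans a4,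
      a5.trans (by gcongr)⟩
  have ex : ∀ {C k t : ℝ}, 0 ≤ t → 0 < C → 0 < k → D / k ≤ C → exp (-k * t) ≤ exp (-D * (t / C)) := fun {C k t} a1 a2 a3 a4 => by
    rw [div_le_iff₀ a3] at a4
    rw [exp_le_exp, neg_mul, neg_mul, neg_le_neg_iff, ← mul_div_assoc, div_le_iff₀ a2]
    nlinarith [mul_le_mul_of_nonneg_right a4 a1]
  by_cases hF : ∀ ε : ℝ, 0 < ε → ∃ S : Finset V, #(bd G S) < ε * #S
  · refine ⟨2 + K + D / (μ / 2), by linarith [div_pos hD1 (half_pos hμ)], fun ρ ρ' h h' t ht => ?_⟩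
    have a0 := div_pos hD1 (half_pos hμ)
    have a1 := folner hD h0 h1 hμ hD1.le hc (htr o) hF h h' ht
    have ht' : 0 ≤ t / (2 + K + D / (μ / 2)) := by positivity
    refine fin (by linarith) measureReal_nonneg measureReal_nonneg
      ((factP hD hc h' h' ht (by nlinarith)).1.trans a1.1) (a1.2.trans ?_)
    have a2 := (factP hD hc h' h' ht' (t := t / K) (by gcongr; linarith)).1
    have a3 := ((factP hD hc h' h' ht' le_rfl).2 0 g0).1
    linarith [ex (C := 2 + K + D / (μ / 2)) ht (by positivity) (half_pos hμ) (by linarith)]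
  · push Not at hF
    obtain ⟨c, c0, hF⟩ := hF
    have g1 := fun F => gap (G := G) (F := F) fun u hu => cheeger hD hD1 c0 hF hu
    set c' := c ^ 2 / (8 * D)
    have c1 : 0 < c' := by positivity
    have c2 : 0 < min (μ / 2) (c' / K) := by positivity
    have a0 := div_pos hD1 c1
    have a1 := div_pos hD1 c2
    refine ⟨2 + D / c' + D / min (μ / 2) (c' / K), by linarith, fun ρ ρ' h h' t ht => ?_⟩
    set C := 2 + D / c' + D / min (μ / 2) (c' / K)
    have C0 : 0 < C := by positivity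
    have a2 := factQ hD h0 h1 hμ hD1.le hc h ht c1.le g1
    have a3 := ((factP hD hc h' h' (mul_nonneg C0.le ht) le_rfl).2 _ g1).2
    have a4 := ((factP hD hc h' h' (div_nonneg ht C0.le) le_rfl).2 _ g1).1
    have a5 := ex (C := C) (mul_nonneg C0.le ht) C0 c1 (by linarith)
    rw [mul_div_cancel_left₀ _ C0.ne'] at a5
    refine fin (by linarith) measureReal_nonneg measureReal_nonneg (a3.trans (a5.trans a2.1)) ?_
    linarith [ex (C := C) ht C0 c2 (by linarith), measureReal_nonneg (μ := ρ' (t / C)) (s := {z | z.1 = o})]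

end

end Pool.Agent.Results.MP_2a8190_pr.Comparison
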